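import Pool.Agent.H72.Sat.Loc

/-!
# Saturation and completion do not commute in any dimension `r ≥ 2`, over any field

For every field `k` of characteristic zero and every `r ≥ 2` there is a pair `{o, R}` satisfying
(A), (B), (C), in which `R` is the local ring of affine `r`-space over `k` at the origin and `o` is
a local ring, such that `o` is saturated while its completion is not saturated.

The ring `o` consists of the triples `(z₀, z₁, z₂)` of elements of `R` with `z₁(0) = z₂(0)` and
`z₀ - z₁ = h a` for some `a` in `R` with `a(0) = (∂/∂X₀)(z₁ - z₂)(0)`, where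
`h = X₀² - X₁ X₀ + X₁³` is prime in `R`, but is a product of two power series of order one.

The definitions of the statement (`IsPair`, `IsCompletedPair`, `IsCompletionIn`, `IsSaturated`,
`saturation`, with `IsCompletion`, `Dominates`, `oStar`, `compositum`) are in
`Pool.Agent.H72.Sat.Defs` and `Pool.Agent.H72.Sat.Compl`.
-/

set_option autoImplicit false

namespace Pool.Agent.Results.MP_4fa782_ag.EveryDimension

open Pool.Agent.H72.Sat

section

variable (k : Type) [Field k] (m : ℕ)

instance : IsDomain (Pw k m) := NoZeroDivisors.to_isDomain _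

/-- `K`, the fraction field of `R` -/
abbrev KK : Type := FractionRing (RR k m)

/-- `K̂`, the fraction field of `R̂`, the ring of formal power series -/
abbrev KW : Type := FractionRing (Pw k m)

variable {k m}

lemma ι_inj : Function.Injective (ι (k := k) (m := m)) := by
  rw [injective_iff_map_eq_zero]
  intro f hf
  obtain ⟨⟨p, s⟩, hps⟩ := IsLocalization.surj (PP k m).primeCompl f
  have hu : IsUnit (algebraMap (Pol k m) (RR k m) s) := IsLocalization.map_units (RR k m) s
  have h1 : cc p = 0 := by
    rw [← ι_alg, ← hps, map_mul, hf, zero_mul]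
  have h2 : p = 0 := by
    apply MvPolynomial.coe_injective (Fin (m + 2)) k
    rw [MvPolynomial.coe_zero]
    exact h1
  rw [h2, map_zero] at hps
  exact (hu.mul_left_eq_zero).1 hps

/-- the natural map `K → K̂` -/
noncomputable def κ : KK k m →+* KW k m :=
  IsFractionRing.map (A := RR k m) (B := Pw k m) (K := KK k m) (L := KW k m)
    (j := ι (k := k) (m := m)) ι_inj

lemma κ_alg (r : RR k m) :
    κ (algebraMap (RR k m) (KK k m) r) = algebraMap (Pw k m) (KW k m) (ι r) :=
  IsLocalization.map_eq (M := nonZeroDivisors (RR k m)) (T := nonZeroDivisors (Pw k m))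
    (nonZeroDivisors_le_comap_nonZeroDivisors_of_injective ι ι_inj) r

variable (k m) in
/-- The ring `o`: all triples `(z₀, z₁, z₂)` of elements of `R` with `z₁(0) = z₂(0)` and
`z₀ - z₁ = h a` for some `a` in `R` with `a(0) = (∂/∂X₀)(z₁ - z₂)(0)`, where
`h = X₀² - X₁ X₀ + X₁³`. -/
noncomputable abbrev oo : Subring (Fin 3 → KK k m) := G (DR k m) (KK k m)

variable (k m) in
/-- The ring `ô`, defined by the same conditions over `R̂`. -/
noncomputable abbrev oW : Subring (Fin 3 → KW k m) := G (DW k m) (KW k m)

variable (k m) in
/-- the map `F = K³ → K̂³` -/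
noncomputable def θ : (Fin 3 → KK k m) →+* (Fin 3 → KW k m) := κ.compLeft (Fin 3)

lemma θ_mem (x : Fin 3 → KK k m) (hx : x ∈ oo k m) : θ k m x ∈ oW k m := by
  obtain ⟨z, hz, rfl⟩ := hx
  refine ⟨_, compat.mem hz, ?_⟩
  funext i
  change algebraMap (Pw k m) (KW k m) (ι (z i)) = κ (algebraMap (RR k m) (KK k m) (z i))
  rw [κ_alg]

lemma restrict_e (z : G0 (DR k m)) :
    ((θ k m).restrict (oo k m) (oW k m) θ_mem) (eG (DR k m) (KK k m) z) =
      eG (DW k m) (KW k m) (j0 compat z) := by
  apply Subtype.ext
  funext i
  change κ (algebraMap (RR k m) (KK k m) (z.1 i)) = algebraMap (Pw k m) (KW k m) (ι (z.1 i))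
  rw [κ_alg]

lemma completion_oo [CharZero k] : IsCompletionIn (θ k m) (oo k m) (oW k m) :=
  ⟨θ_mem, IsCompletion.transfer (eG (DR k m) (KK k m)) (eG (DW k m) (KW k m)) restrict_e
    (completion_G0 compat completion_ι DW_h_ne)⟩

lemma isLocalRing_oo : IsLocalRing (oo k m) := by
  have := isLocalRing_G0 (DR k m)
  exact (eG (DR k m) (KK k m)).isLocalRing

lemma isPair [CharZero k] : IsPair k (RR k m) (KK k m) (Fin 3 → KK k m) (oo k m) where
  semilocal := by
    have := isLocalRing_oo (k := k) (m := m)
    infer_instance
  reduced := isReduced_G (DR k m) (KK k m)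
  regular := inferInstance
  isDomain := inferInstance
  essFinite := inferInstance
  le := fun r => ⟨algebraMap (RR k m) (Fin 3 → RR k m) r, (G0 (DR k m)).algebraMap_mem r, rfl⟩
  fg := by
    have h1 : (Subalgebra.toSubmodule (G0 (DR k m))).FG := by
      have := finite_G0 (DR k m)
      exact Module.Finite.iff_fg.1 this
    have h2 := h1.map (LinearMap.compLeft (Algebra.linearMap (RR k m) (KK k m)) (Fin 3))
    obtain ⟨S, hS⟩ := h2
    refine ⟨S, ?_⟩
    rw [hS]
    rfl
  fractions := inferInstance
  total := isFractionRing_G (DR k m) (KK k m) prime_h.ne_zero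

lemma isCompletedPair [CharZero k] :
    IsCompletedPair (KW k m) (ι (k := k) (m := m)) (θ k m) (oo k m) (oW k m) where
  base := completion_ι
  ofRing := completion_oo
  comm := by
    intro r
    funext i
    change κ (algebraMap (RR k m) (KK k m) r) = algebraMap (Pw k m) (KW k m) (ι r)
    rw [κ_alg]
  fractions := inferInstance
  total := isFractionRing_G (DW k m) (KW k m) DW_h_ne

end

instance originPrime (k : Type) [Field k] (r : ℕ) :
    (RingHom.ker (MvPolynomial.constantCoeff : MvPolynomial (Fin r) k →+* k)).IsPrime :=
  RingHom.ker_isPrime _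

/-- **Main result.** For every field `k` of characteristic zero and every `r ≥ 2` there is a pair
`{o, R}` satisfying (A), (B), (C), with `R` the local ring of affine `r`-space over `k` at the
origin and `o` a local ring, such that `o` is saturated with respect to the fraction field of `R`,
so that the completion `oHat` of `o` is the completion of the saturation of `o`, while `oHat` is
strictly smaller than its saturation with respect to the fraction field of the completion of
`R`. -/
theorem result (k : Type) [Field k] [CharZero k] (r : ℕ) (hr : 2 ≤ r) :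
    ∃ (R K F Ω R' K' F' Ω' : Type) (_ : CommRing R) (_ : Field K) (_ : CommRing F)
    (_ : Field Ω) (_ : CommRing R') (_ : Field K') (_ : CommRing F') (_ : Field Ω')
    (_ : Algebra k R) (_ : Algebra (MvPolynomial (Fin r) k) R)
    (_ : IsScalarTower k (MvPolynomial (Fin r) k) R) (_ : Algebra R K) (_ : Algebra K F)
    (_ : Algebra R F) (_ : IsScalarTower R K F) (_ : Algebra K Ω) (_ : Algebra R' K')
    (_ : Algebra K' F') (_ : Algebra K' Ω') (i : R →+* R') (θ : F →+* F') (o : Subring F)
    (oHat : Subring F'),
    IsLocalization.AtPrime R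
      (RingHom.ker (MvPolynomial.constantCoeff : MvPolynomial (Fin r) k →+* k)) ∧
    IsPair k R K F o ∧ ringKrullDim R = r ∧ IsLocalRing o ∧ IsAlgClosure K Ω ∧
    IsAlgClosure K' Ω' ∧ IsCompletedPair K' i θ o oHat ∧
    IsSaturated R K F Ω o ∧ IsCompletionIn θ (saturation R K F Ω o) oHat ∧
    oHat < saturation R' K' F' Ω' oHat := by
  obtain ⟨m, rfl⟩ : ∃ m, r = m + 2 := ⟨r - 2, by omega⟩
  have hsat : IsSaturated (RR k m) (KK k m) (Fin 3 → KK k m) (AlgebraicClosure (KK k m))
      (oo k m) := saturated_G (DR k m) (KK k m) (AlgebraicClosure (KK k m)) prime_h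
  refine ⟨RR k m, KK k m, Fin 3 → KK k m, AlgebraicClosure (KK k m), Pw k m, KW k m,
    Fin 3 → KW k m, AlgebraicClosure (KW k m),
    inferInstance, inferInstance, inferInstance, inferInstance, inferInstance, inferInstance,
    inferInstance, inferInstance, inferInstance, inferInstance, inferInstance, inferInstance,
    inferInstance, inferInstance, inferInstance, inferInstance, inferInstance, inferInstance,
    inferInstance, ι, θ k m, oo k m, oW k m,
    inferInstanceAs (IsLocalization.AtPrime (RR k m) (PP k m)), isPair, dim_RR k m,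
    isLocalRing_oo, inferInstance, inferInstance, isCompletedPair, hsat, ?_, ?_⟩
  · rw [saturation_eq hsat]
    exact completion_oo
  · obtain ⟨p, q, h1, h2, h3, h4⟩ := factor (k := k) (m := m)
    exact lt_saturation (not_saturated_G (DW k m) (KW k m) (AlgebraicClosure (KW k m)) DW_h_ne
      p q h1 h2 h3 h4)

end Pool.Agent.Results.MP_4fa782_ag.EveryDimension
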